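import Pool.Agent.W292.RG.Stm

set_option autoImplicit false

namespace Pool.Agent.W880.RG

open Finset H331HC Pool.Agent.Helper879.ECD Pool.Agent.W292.RG

/-- parity of the number of odd components, without assuming that the order is even -/
lemma parity {W : Type} [Finite W] (H : SimpleGraph W) (U : Set W) :
    ({Z | OddComp H U Z}.ncard + U.ncard + Nat.card W) % 2 = 0 := by
  rw [← ncard_oddComp]
  have h1 := SimpleGraph.odd_ncard_oddComponents ((⊤ : H.Subgraph).deleteVerts U).coe
  have h2 : Nat.card ((⊤ : H.Subgraph).deleteVerts U).verts + U.ncard = Nat.card W := by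
    have : ((⊤ : H.Subgraph).deleteVerts U).verts = Uᶜ := by
      ext x; simp
    rw [this]
    have := Set.ncard_add_ncard_compl U
    rw [Nat.card_coe_set_eq]
    omega
  rcases Nat.even_or_odd (((⊤ : H.Subgraph).deleteVerts U).coe.oddComponents.ncard) with h | h
  · have h3 : ¬ Odd (Nat.card ((⊤ : H.Subgraph).deleteVerts U).verts) := by
      rw [← h1]; exact Nat.not_odd_iff_even.mpr h
    rw [Nat.not_odd_iff_even, Nat.even_iff] at h3
    rw [Nat.even_iff] at h
    omega
  · have h3 := h1.1 h
    rw [Nat.odd_iff] at h3 h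
    omega

theorem TB2 : St_TB1 → St_TB2 := by
  intro hTB V _ _ G
  classical
  obtain ⟨A, hA⟩ := Finite.exists_max
    (fun A : Set V => ({Z | OddComp Gᶜ A Z}.ncard : ℤ) - (A.ncard : ℤ))
  have h0 := hA ∅
  simp only [Set.ncard_empty, Nat.cast_zero, sub_zero] at h0
  have hge : A.ncard ≤ {Z | OddComp Gᶜ A Z}.ncard := by omega
  obtain ⟨t, ht⟩ := Nat.exists_eq_add_of_le hge
  have hpar := parity Gᶜ A
  rw [Nat.card_eq_fintype_card] at hpar
  have hev : Even (Fintype.card V + t) := by
    rw [Nat.even_iff]; omega
  obtain ⟨g, hg1, hg2, hg3⟩ := hTB V Gᶜ t hev (by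
    intro B
    have hB := hA B
    omega)
  obtain ⟨s, hs⟩ := hev
  refine ⟨A, s, by omega, ?_⟩
  have horb := orb_card g hg1
  set I := univ.image (fun x => ({x, g x} : Finset V)) with hI
  have hle : I.card ≤ s := by omega
  have hmem : ∀ x, ({x, g x} : Finset V) ∈ I := fun x => mem_image_of_mem _ (mem_univ x)
  have col : G.Coloring I := SimpleGraph.Coloring.mk (fun x => ⟨{x, g x}, hmem x⟩) (by
    intro x y hxy heq
    have heq' : ({x, g x} : Finset V) = {y, g y} := congrArg Subtype.val heq
    have hy : y ∈ ({x, g x} : Finset V) := by rw [heq']; simp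
    rw [mem_insert, mem_singleton] at hy
    rcases hy with hy | hy
    · exact hxy.ne hy.symm
    · have hne : g x ≠ x := by rw [← hy]; exact hxy.ne'
      have := hg2 x hne
      rw [← hy, SimpleGraph.compl_adj] at this
      exact this.2 hxy)
  have hcol : G.Colorable (Fintype.card I) := col.colorable
  rw [Fintype.card_coe] at hcol
  exact hcol.mono hle

end Pool.Agent.W880.RG
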